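import Mathlib
import Pool.Agent.Helper579.CayInf.Defs
import Pool.Agent.Helper579.CayInf.P_wo_gen

/-!
# Sparse cuts in the Cayley graphs of well-ordered generating sets

If `G` is well-ordered and `H` is the set of the elements that are not generated by smaller ones,
then every finite set of at least two vertices of `X(G,H)` has a cut in which every vertex has at
most two neighbours, and hence `n` vertices span at most `n log₂ n` edges.
-/

set_option autoImplicit false

universe u v

namespace Pool.Agent.Y100.CAY

open CayInf Finset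

/-- the generating set attached to a well-order of the group -/
def gens (G : Type u) [Group G] [LinearOrder G] : Set G :=
  {g : G | g ∉ Subgroup.closure (Set.Iio g)}

/-- The set `A` splits `F` into two nonempty parts such that every vertex has at most two
neighbours in the other part. -/
def Cuttable {V : Type v} (X : SimpleGraph V) (F : Finset V) : Prop :=
  ∃ A : Set V, (∃ x ∈ F, x ∈ A) ∧ (∃ x ∈ F, x ∉ A) ∧
    ∀ x ∈ F, {y : V | y ∈ F ∧ X.Adj x y ∧ ¬ (y ∈ A ↔ x ∈ A)}.encard ≤ 2

theorem cuttable {G : Type u} [Group G] [LinearOrder G] [WellFoundedLT G] (F : Finset G)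
    (hF : 2 ≤ F.card) : Cuttable (cay G (gens G)) F := by
  classical
  obtain ⟨L, hL⟩ : ∃ L : Finset G, L =
    ((F ×ˢ F).image (fun p => p.2 * p.1⁻¹)).filter (fun g => g ∈ gens G) := ⟨_, rfl⟩
  have hLm : ∀ x ∈ F, ∀ y ∈ F, y * x⁻¹ ∈ gens G → y * x⁻¹ ∈ L := by
    intro x hx y hy h
    rw [hL, mem_filter, mem_image]
    exact ⟨⟨(x, y), by simp [hx, hy], rfl⟩, h⟩
  rcases L.eq_empty_or_nonempty with hE | hN
  · have hno : ∀ x ∈ F, ∀ y ∈ F, ¬ (cay G (gens G)).Adj x y := by
      intro x hx y hy h
      rcases h.2 with h | h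
      · have h1 := hLm x hx y hy h
        rw [hE] at h1
        exact absurd h1 (notMem_empty _)
      · have h1 := hLm y hy x hx h
        rw [hE] at h1
        exact absurd h1 (notMem_empty _)
    obtain ⟨a, ha, b, hb, hab⟩ := Finset.one_lt_card.mp (by omega : 1 < F.card)
    refine ⟨{a}, ⟨a, ha, rfl⟩, ⟨b, hb, fun h => hab h.symm⟩, ?_⟩
    intro x hx
    have h0 : {y : G | y ∈ F ∧ (cay G (gens G)).Adj x y ∧ ¬ (y ∈ ({a} : Set G) ↔ x ∈ ({a} : Set G))}
        = ∅ := by
      ext y
      simp only [Set.mem_ofPred_eq, Set.mem_empty_iff_false, iff_false]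
      rintro ⟨hy, h1, -⟩
      exact hno x hx y hy h1
    rw [h0]
    simp
  · obtain ⟨h, hh, hle⟩ : ∃ h ∈ L, ∀ g ∈ L, g ≤ h :=
      ⟨L.max' hN, L.max'_mem hN, fun g hg => L.le_max' g hg⟩
    have hh' := hh
    rw [hL, mem_filter, mem_image] at hh'
    obtain ⟨⟨⟨x0, y0⟩, hxy, hxy2⟩, hh2⟩ := hh'
    rw [mem_product] at hxy
    have hK : h ∉ Subgroup.closure (Set.Iio h) := hh2
    have hsub : ∀ g : G, g < h → g ∈ Subgroup.closure (Set.Iio h) := fun g hg =>
      Subgroup.subset_closure hg
    have key : ∀ x ∈ F, ∀ y ∈ F, (cay G (gens G)).Adj x y →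
        y * x⁻¹ ∉ Subgroup.closure (Set.Iio h) → y = h * x ∨ y = h⁻¹ * x := by
      intro x hx y hy hadj hnK
      rcases hadj.2 with h1 | h1
      · have hm := hLm x hx y hy h1
        rcases (hle _ hm).lt_or_eq with h2 | h2
        · exact absurd (hsub _ h2) hnK
        · left
          rw [← h2]
          group
      · have hm := hLm y hy x hx h1
        rcases (hle _ hm).lt_or_eq with h2 | h2
        · exfalso
          apply hnK
          have h3 := (Subgroup.closure (Set.Iio h)).inv_mem (hsub _ h2)
          simpa using h3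
        · right
          rw [← h2]
          group
    refine ⟨{x : G | x * x0⁻¹ ∈ Subgroup.closure (Set.Iio h)}, ⟨x0, hxy.1, ?_⟩,
      ⟨y0, hxy.2, fun h3 => ?_⟩, ?_⟩
    · simp only [Set.mem_ofPred_eq, mul_inv_cancel]
      exact one_mem _
    · simp only [Set.mem_ofPred_eq] at h3
      simp only at hxy2
      rw [hxy2] at h3
      exact hK h3
    · intro x hx
      refine le_trans (Set.encard_le_encard (t := {h * x, h⁻¹ * x}) ?_)
        ((Set.encard_insert_le _ _).trans (by rw [Set.encard_singleton, one_add_one_eq_two]))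
      rintro y ⟨hy, hadj, hne⟩
      simp only [Set.mem_ofPred_eq] at hne
      have h4 : y * x⁻¹ ∉ Subgroup.closure (Set.Iio h) := by
        intro hc
        apply hne
        have h6 : y * x0⁻¹ = y * x⁻¹ * (x * x0⁻¹) := by group
        rw [h6]
        exact Subgroup.mul_mem_cancel_left _ hc
      have h7 := key x hx y hy hadj h4
      simpa using h7

open Classical in
/-- the number of adjacent pairs -/
noncomputable def I {V : Type v} (X : SimpleGraph V) (S T : Finset V) : ℕ :=
  ∑ x ∈ S, (T.filter (fun y => X.Adj x y)).card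

theorem I_comm {V : Type v} (X : SimpleGraph V) (S T : Finset V) : I X S T = I X T S := by
  classical
  unfold I
  simp only [Finset.card_filter]
  rw [Finset.sum_comm]
  refine Finset.sum_congr rfl fun y _ => Finset.sum_congr rfl fun x _ => ?_
  simp only [X.adj_comm x y]

theorem I_split {V : Type v} [DecidableEq V] (X : SimpleGraph V) (F A : Finset V) (hA : A ⊆ F) :
    I X F F = I X A A + I X (F \ A) (F \ A) + 2 * I X A (F \ A) := by
  classical
  have h1 : ∀ S : Finset V, I X S F = I X S A + I X S (F \ A) := by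
    intro S
    unfold I
    rw [← Finset.sum_add_distrib]
    refine Finset.sum_congr rfl fun x _ => ?_
    rw [Finset.card_filter, Finset.card_filter, Finset.card_filter, add_comm,
      Finset.sum_sdiff hA]
  have h2 : I X F F = I X (F \ A) F + I X A F := by
    conv_lhs => unfold I
    rw [← Finset.sum_sdiff hA]
    rfl
  rw [h2, h1, h1, I_comm X (F \ A) A]
  ring

theorem I_le {V : Type v} (X : SimpleGraph V) (S T : Finset V)
    (h : ∀ x ∈ S, I X {x} T ≤ 2) : I X S T ≤ 2 * S.card := by
  classical
  have h1 : I X S T ≤ ∑ _x ∈ S, 2 := by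
    unfold I
    refine Finset.sum_le_sum fun x hx => ?_
    have h2 := h x hx
    unfold I at h2
    simpa using h2
  rw [Finset.sum_const] at h1
  simp only [smul_eq_mul] at h1
  omega

theorem ineq {a b : ℝ} (ha : 0 < a) (hab : a ≤ b) :
    a * Real.log a + b * Real.log b + 2 * a * Real.log 2 ≤ (a + b) * Real.log (a + b) := by
  have hb : 0 < b := lt_of_lt_of_le ha hab
  have h1 : Real.log 2 + Real.log a ≤ Real.log (a + b) := by
    rw [← Real.log_mul (by norm_num) (ne_of_gt ha)]
    exact Real.log_le_log (by positivity) (by linarith)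
  have h2 : a * Real.log 2 + b * Real.log b ≤ b * Real.log (a + b) := by
    have h3 : (1 + 1 : ℝ) ^ (a / b) ≤ 1 + (a / b) * 1 :=
      rpow_one_add_le_one_add_mul_self (by norm_num) (by positivity)
        ((div_le_one hb).mpr hab)
    have h4 : (a / b) * Real.log 2 ≤ Real.log (1 + a / b) := by
      have h5 := Real.log_le_log (by positivity) h3
      rw [Real.log_rpow (by norm_num), mul_one] at h5
      have h6 : (1 + 1 : ℝ) = 2 := by norm_num
      rw [h6] at h5
      exact h5
    have h7 : Real.log (a + b) = Real.log b + Real.log (1 + a / b) := by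
      rw [← Real.log_mul (ne_of_gt hb) (by positivity)]
      congr 1
      field_simp
      ring
    rw [h7]
    have h8 : b * ((a / b) * Real.log 2) = a * Real.log 2 := by
      field_simp
    have h9 := mul_le_mul_of_nonneg_left h4 hb.le
    rw [h8] at h9
    linarith
  have h10 := mul_le_mul_of_nonneg_left h1 ha.le
  nlinarith

theorem bound {V : Type v} (X : SimpleGraph V) (hX : ∀ F : Finset V, 2 ≤ F.card → Cuttable X F) :
    ∀ (n : ℕ) (F : Finset V), F.card = n →
      (I X F F : ℝ) * Real.log 2 ≤ 2 * ((F.card : ℝ) * Real.log F.card) := by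
  classical
  intro n
  induction n using Nat.strong_induction_on with
  | _ n ih =>
    intro F hFn
    rcases Nat.lt_or_ge F.card 2 with h2 | h2
    · have h0 : I X F F = 0 := by
        unfold I
        refine Finset.sum_eq_zero fun x hx => ?_
        rw [Finset.card_eq_zero, Finset.filter_eq_empty_iff]
        intro y hy
        have : x = y := Finset.card_le_one.mp (by omega) x hx y hy
        rw [this]
        exact X.irrefl
      rw [h0]
      have h1 : (0 : ℝ) ≤ (F.card : ℝ) * Real.log F.card := by
        rcases Nat.eq_zero_or_pos F.card with h | h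
        · rw [h]; simp
        · have : F.card = 1 := by omega
          rw [this]; simp
      simp only [Nat.cast_zero, zero_mul]
      linarith
    · obtain ⟨S, ⟨x1, hx1, hx1'⟩, ⟨x2, hx2, hx2'⟩, hS⟩ := hX F h2
      obtain ⟨A, hA⟩ : ∃ A : Finset V, A = F.filter (fun x => x ∈ S) := ⟨_, rfl⟩
      have hAF : A ⊆ F := by
        rw [hA]
        exact filter_subset _ _
      have hmA : ∀ x, x ∈ A ↔ x ∈ F ∧ x ∈ S := fun x => by rw [hA, mem_filter]
      have hmB : ∀ x, x ∈ F \ A ↔ x ∈ F ∧ x ∉ S := fun x => by
        rw [mem_sdiff, hmA]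
        tauto
      have hA1 : A.Nonempty := ⟨x1, (hmA _).mpr ⟨hx1, hx1'⟩⟩
      have hA2 : (F \ A).Nonempty := ⟨x2, (hmB _).mpr ⟨hx2, hx2'⟩⟩
      have hA3 : ∀ x ∈ A, I X {x} (F \ A) ≤ 2 := by
        intro x hx
        have hx' := (hmA x).mp hx
        have h5 := hS x hx'.1
        unfold I
        rw [Finset.sum_singleton, ← Nat.cast_le (α := ℕ∞), ← Set.encard_coe_eq_coe_finsetCard]
        refine le_trans (Set.encard_le_encard ?_) h5
        intro y hy
        rw [mem_coe, mem_filter, hmB] at hy
        exact ⟨hy.1.1, hy.2, fun h => hy.1.2 (h.mpr hx'.2)⟩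
      have hA4 : ∀ x ∈ F \ A, I X {x} A ≤ 2 := by
        intro x hx
        have hx' := (hmB x).mp hx
        have h5 := hS x hx'.1
        unfold I
        rw [Finset.sum_singleton, ← Nat.cast_le (α := ℕ∞), ← Set.encard_coe_eq_coe_finsetCard]
        refine le_trans (Set.encard_le_encard ?_) h5
        intro y hy
        rw [mem_coe, mem_filter, hmA] at hy
        exact ⟨hy.1.1, hy.2, fun h => hx'.2 (h.mp hy.1.2)⟩
      have hcard : (F \ A).card + A.card = F.card := Finset.card_sdiff_add_card_eq_card hAF
      have hp1 := hA1.card_pos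
      have hp2 := hA2.card_pos
      have e1 := ih A.card (by omega) A rfl
      have e2 := ih (F \ A).card (by omega) (F \ A) rfl
      have c1 : I X A (F \ A) ≤ 2 * A.card := by
        exact I_le X _ _ hA3
      have c2 : I X A (F \ A) ≤ 2 * (F \ A).card := by
        rw [I_comm]
        exact I_le X _ _ hA4
      have hs := I_split X F A hAF
      have hs' : (I X F F : ℝ) = I X A A + I X (F \ A) (F \ A) + 2 * I X A (F \ A) := by
        exact_mod_cast hs
      have hc' : (F.card : ℝ) = (A.card : ℝ) + ((F \ A).card : ℝ) := by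
        rw [← hcard]
        push_cast
        ring
      have hl : 0 < Real.log 2 := Real.log_pos (by norm_num)
      rw [hs', hc']
      rcases le_total A.card (F \ A).card with hle | hle
      · have hi := ineq (a := (A.card : ℝ)) (b := ((F \ A).card : ℝ)) (by exact_mod_cast hp1)
          (by exact_mod_cast hle)
        have c1' : (I X A (F \ A) : ℝ) ≤ 2 * A.card := by exact_mod_cast c1
        have c3 := mul_le_mul_of_nonneg_right c1' hl.le
        nlinarith
      · have hi := ineq (a := ((F \ A).card : ℝ)) (b := (A.card : ℝ)) (by exact_mod_cast hp2)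
          (by exact_mod_cast hle)
        have c1' : (I X A (F \ A) : ℝ) ≤ 2 * (F \ A).card := by exact_mod_cast c2
        have c3 := mul_le_mul_of_nonneg_right c1' hl.le
        rw [add_comm ((F \ A).card : ℝ) (A.card : ℝ)] at hi
        nlinarith

theorem I_univ {V : Type v} [Fintype V] (Y : SimpleGraph V) :
    I Y Finset.univ Finset.univ = 2 * Y.edgeSet.ncard := by
  classical
  have h1 := Y.sum_degrees_eq_twice_card_edges
  have h2 : Y.edgeSet.ncard = #Y.edgeFinset := by
    rw [Set.ncard_eq_toFinset_card']
    rfl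
  rw [h2, ← h1]
  unfold I
  refine Finset.sum_congr rfl fun x _ => ?_
  rw [← SimpleGraph.card_neighborFinset_eq_degree, SimpleGraph.neighborFinset_eq_filter]

/-- few edges in the finite graphs contained in `X` -/
theorem edges_le {V : Type v} (X : SimpleGraph V) (hX : ∀ F : Finset V, 2 ≤ F.card → Cuttable X F)
    {W : Type u} [Fintype W] (Y : SimpleGraph W) (hY : Y.IsContained X) :
    (Y.edgeSet.ncard : ℝ) ≤ (Fintype.card W : ℝ) * Real.logb 2 (Fintype.card W) := by
  classical
  obtain ⟨f⟩ := hY
  have h1 : I Y Finset.univ Finset.univ ≤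
      I X (Finset.univ.image f) (Finset.univ.image f) := by
    unfold I
    rw [Finset.sum_image (f := fun x => #({y ∈ image (⇑f) univ | X.Adj x y})) (g := (⇑f)) (fun a _ b _ h => f.injective h)]
    refine Finset.sum_le_sum fun x _ => ?_
    refine Finset.card_le_card_of_injOn f ?_ (fun a _ b _ h => f.injective h)
    intro y hy
    simp only [Finset.coe_filter, Finset.mem_univ, true_and, Set.mem_ofPred_eq] at hy
    simp only [Finset.coe_filter, Set.mem_ofPred_eq]
    exact ⟨Finset.mem_image_of_mem _ (Finset.mem_univ _), f.toHom.map_adj hy⟩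
  have h2 := bound X hX _ (Finset.univ.image f) rfl
  have h3 : (Finset.univ.image f).card = Fintype.card W := by
    rw [Finset.card_image_of_injective (f := (⇑f)) _ f.injective, Finset.card_univ]
  rw [h3] at h2
  rw [I_univ] at h1
  have hl : 0 < Real.log 2 := Real.log_pos (by norm_num)
  have h4 : ((2 * Y.edgeSet.ncard : ℕ) : ℝ) ≤
      (I X (Finset.univ.image f) (Finset.univ.image f) : ℝ) := by
    exact_mod_cast h1
  have h5 := mul_le_mul_of_nonneg_right h4 hl.le
  rw [Real.logb, mul_div_assoc', le_div_iff₀ hl]
  push_cast at h5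
  linarith

end Pool.Agent.Y100.CAY
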