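import Mathlib
import Pool.Agent.Helper579.CayInf.Defs

/-!
# The powers of the triangle are unavoidable
-/

set_option autoImplicit false

universe u v

namespace Pool.Agent.Y100.CAY

open CayInf

/-- the `k`-th Cartesian power of the triangle: `x`, `y` are adjacent when they differ in exactly
one coordinate, i.e. by plus or minus a unit vector -/
def ham (k : ℕ) : SimpleGraph (Fin k → ZMod 3) where
  Adj x y := ∃ i, y = x + Pi.single i 1 ∨ x = y + Pi.single i 1
  symm := ⟨fun x y h => by
    obtain ⟨i, h | h⟩ := h
    · exact ⟨i, Or.inr h⟩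
    · exact ⟨i, Or.inl h⟩⟩
  loopless := ⟨fun x h => by
    obtain ⟨i, h | h⟩ := h
    all_goals
      have h1 : (Pi.single i 1 : Fin k → ZMod 3) = 0 := by
        simpa using h.symm
      have h2 := congrFun h1 i
      simp at h2⟩

/-- the two signs -/
def sg (b : Bool) : ZMod 3 := if b then 1 else -1

theorem sg_ne : ∀ b : Bool, sg b ≠ 0 := by decide

theorem sg_inj : ∀ b c : Bool, sg b = sg c → b = c := by decide

theorem ham_adj {k : ℕ} (x y : Fin k → ZMod 3) :
    (ham k).Adj x y ↔ ∃ p : Fin k × Bool, y = x + Pi.single p.1 (sg p.2) := by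
  constructor
  · rintro ⟨i, h | h⟩
    · exact ⟨(i, true), h⟩
    · refine ⟨(i, false), ?_⟩
      rw [h]
      have : (Pi.single i (sg false) : Fin k → ZMod 3) = - Pi.single i 1 := by
        rw [← Pi.single_neg]
        rfl
      simp only [this]
      abel
  · rintro ⟨⟨i, b⟩, h⟩
    cases b
    · refine ⟨i, Or.inr ?_⟩
      have : (Pi.single i (sg false) : Fin k → ZMod 3) = - Pi.single i 1 := by
        rw [← Pi.single_neg]
        rfl
      rw [h]
      simp only [this]
      abel
    · exact ⟨i, Or.inl h⟩

theorem ham_deg {k : ℕ} (x : Fin k → ZMod 3) [Fintype ((ham k).neighborSet x)] :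
    (ham k).degree x = 2 * k := by
  classical
  have h1 : (ham k).neighborFinset x =
      Finset.univ.image (fun p : Fin k × Bool => x + Pi.single p.1 (sg p.2)) := by
    ext y
    rw [SimpleGraph.mem_neighborFinset, ham_adj, Finset.mem_image]
    constructor
    · rintro ⟨p, hp⟩
      exact ⟨p, Finset.mem_univ _, hp.symm⟩
    · rintro ⟨p, -, hp⟩
      exact ⟨p, hp.symm⟩
  rw [← SimpleGraph.card_neighborFinset_eq_degree, h1, Finset.card_image_of_injective]
  · rw [Finset.card_univ, Fintype.card_prod, Fintype.card_fin, Fintype.card_bool]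
    ring
  · rintro ⟨i, b⟩ ⟨j, c⟩ h
    have h2 : (Pi.single i (sg b) : Fin k → ZMod 3) = Pi.single j (sg c) := add_left_cancel h
    have h3 : i = j := by
      by_contra hne
      have h4 := congrFun h2 i
      rw [Pi.single_eq_same, Pi.single_eq_of_ne hne] at h4
      exact sg_ne b h4
    subst h3
    have h4 := congrFun h2 i
    rw [Pi.single_eq_same, Pi.single_eq_same] at h4
    rw [sg_inj b c h4]

theorem ham_edges (k : ℕ) : (ham k).edgeSet.ncard = k * 3 ^ k := by
  classical
  have h1 := (ham k).sum_degrees_eq_twice_card_edges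
  have h2 : (ham k).edgeSet.ncard = (ham k).edgeFinset.card := by
    rw [Set.ncard_eq_toFinset_card']
    rfl
  rw [Finset.sum_congr rfl (fun x _ => ham_deg x), Finset.sum_const, Finset.card_univ] at h1
  have h3 : Fintype.card (Fin k → ZMod 3) = 3 ^ k := by
    rw [Fintype.card_fun, Fintype.card_fin, ZMod.card]
  rw [h3, smul_eq_mul] at h1
  rw [h2]
  have h4 : 2 * (ham k).edgeFinset.card = 2 * (k * 3 ^ k) := by
    rw [← h1]
    ring
  omega

/-- every Cayley graph of `(ℤ/3)^k` contains the `k`-th power of the triangle -/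
theorem ham_unavoidable (k : ℕ) : ∃ (G : Type u) (_ : Group G), ∀ H : Set G,
    Subgroup.closure H = ⊤ → (ham k).IsContained (cay G H) := by
  classical
  refine ⟨ULift.{u} (Multiplicative (Fin k → ZMod 3)), inferInstance, ?_⟩
  intro H hH
  have hspan : Submodule.span (ZMod 3)
      {v : Fin k → ZMod 3 | (ULift.up (Multiplicative.ofAdd v)) ∈ H} = ⊤ := by
    have h1 : ∀ g ∈ Subgroup.closure H, Multiplicative.toAdd g.down ∈ Submodule.span (ZMod 3)
        {v : Fin k → ZMod 3 | (ULift.up (Multiplicative.ofAdd v)) ∈ H} := by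
      intro g hg
      induction hg using Subgroup.closure_induction with
      | mem x hx => exact Submodule.subset_span hx
      | one => exact Submodule.zero_mem _
      | mul x y hx hy ihx ihy => exact Submodule.add_mem _ ihx ihy
      | inv x hx ihx => exact Submodule.neg_mem _ ihx
    rw [eq_top_iff]
    intro v _
    have h2 := h1 (ULift.up (Multiplicative.ofAdd v)) (by rw [hH]; exact Subgroup.mem_top _)
    exact h2
  obtain ⟨b, hb, hbs, hli⟩ := exists_linearIndependent (ZMod 3)
    {v : Fin k → ZMod 3 | (ULift.up (Multiplicative.ofAdd v)) ∈ H}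
  rw [hspan] at hbs
  have hr : Set.range ((↑) : b → (Fin k → ZMod 3)) = b := Subtype.range_coe
  let B0 : Module.Basis b (ZMod 3) (Fin k → ZMod 3) := Module.Basis.mk hli (by rw [hr, hbs])
  have hfin : Finite b := Set.toFinite b
  haveI := Fintype.ofFinite b
  have hcard : Fintype.card b = k := by
    have h3 := Module.finrank_eq_card_basis B0
    rw [Module.finrank_fin_fun] at h3
    exact h3.symm
  let e : b ≃ Fin k := Fintype.equivFinOfCardEq hcard
  let B := B0.reindex e
  have hBH : ∀ i, (ULift.up (Multiplicative.ofAdd (B i)) :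
      ULift.{u} (Multiplicative (Fin k → ZMod 3))) ∈ H := by
    intro i
    have h4 : B i = ((e.symm i : b) : Fin k → ZMod 3) := by
      simp [B, B0]
    rw [h4]
    exact hb (e.symm i).2
  have hsingle : ∀ i, B.equivFun.symm (Pi.single i 1) = B i := by
    intro i
    rw [LinearEquiv.symm_apply_eq]
    ext j
    rw [Module.Basis.equivFun_self, Pi.single_apply]
    simp [eq_comm]
  have hinj : Function.Injective (fun x : Fin k → ZMod 3 =>
      (ULift.up (Multiplicative.ofAdd (B.equivFun.symm x)) :
        ULift.{u} (Multiplicative (Fin k → ZMod 3)))) := by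
    intro x y h
    exact B.equivFun.symm.injective (Multiplicative.ofAdd.injective (ULift.up_injective h))
  refine ⟨⟨⟨_, ?_⟩, hinj⟩⟩
  intro x y hxy
  refine ⟨fun h => hxy.ne (hinj h), ?_⟩
  have main : ∀ (z w : Fin k → ZMod 3) (i : Fin k), w = z + Pi.single i 1 →
      (ULift.up (Multiplicative.ofAdd (B.equivFun.symm w)) :
        ULift.{u} (Multiplicative (Fin k → ZMod 3))) *
        (ULift.up (Multiplicative.ofAdd (B.equivFun.symm z)))⁻¹ ∈ H := by
    intro z w i h
    have h5 : B.equivFun.symm w = B.equivFun.symm z + B i := by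
      rw [h, map_add, hsingle]
    have h6 : (ULift.up (Multiplicative.ofAdd (B.equivFun.symm w)) :
        ULift.{u} (Multiplicative (Fin k → ZMod 3))) =
        ULift.up (Multiplicative.ofAdd (B i)) *
        ULift.up (Multiplicative.ofAdd (B.equivFun.symm z)) := by
      rw [h5, add_comm]
      rfl
    rw [h6, mul_inv_cancel_right]
    exact hBH i
  obtain ⟨i, h | h⟩ := hxy
  · exact Or.inl (main x y i h)
  · exact Or.inr (main y x i h)

end Pool.Agent.Y100.CAY
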